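import Pool.Agent.H295R3.NA.FinalB

/-!
# Non-arithmetic integers: the only possible closed form of the asymptotics, and its validity in the mean

Let `N(x)` be the number of `n ≤ x` with `d(n) ∤ σ(n)` and
`g(x) = √π (log 2)^{-3/4} (log log x)^{1/4} exp(-2 √(log 2 log log x)) / log log log x`.
We prove that `N(x)/(x g(x))` has mean value `1` on the scale `y = √(log log x/log 2)`; consequently, if
`N(x)/x ~ h(x)` and `h/g` has a limit in `[-∞, ∞]` (as for every pair of closed forms), then the limit is `1`.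
-/

set_option autoImplicit false

open Finset Filter Topology

namespace Pool.Agent.Results.MP_d8321d_nt.ClosedFormInMean

/-- `N(x)`: the number of positive integers `n ≤ x` such that `d(n)` does not divide `σ(n)` -/
noncomputable def N (x : ℝ) : ℝ :=
  (((Icc 1 ⌊x⌋₊).filter (fun n : ℕ => ¬ n.divisors.card ∣ ∑ d ∈ n.divisors, d)).card : ℝ)

/-- the closed form `g(x)` -/
noncomputable def g (x : ℝ) : ℝ :=
  √Real.pi * (Real.log (Real.log x)) ^ (1 / 4 : ℝ) *
    Real.exp (-2 * √(Real.log (Real.log x) * Real.log 2)) /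
      ((Real.log 2) ^ (3 / 4 : ℝ) * Real.log (Real.log (Real.log x)))

/-- the point `x` with `√(log log x/log 2) = y` -/
noncomputable def X (y : ℝ) : ℝ := Real.exp (Real.exp (y ^ 2 * Real.log 2))

theorem result :
    Tendsto (fun Y : ℝ => (1 / Y) * ∫ y in Y..(2 * Y), N (X y) / (X y * g (X y))) atTop (𝓝 1) ∧
    ∀ h : ℝ → ℝ, Tendsto (fun x : ℝ => N x / (x * h x)) atTop (𝓝 1) →
      ∀ c : EReal, Tendsto (fun x : ℝ => ((h x / g x : ℝ) : EReal)) atTop (𝓝 c) → c = 1 := by
  have h2 : ∀ x : ℝ, N x = Pool.Agent.H295R3.NA.Nb Pool.Agent.H295R3.NA.NonArith ⌊x⌋₊ := by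
    intro x
    unfold N Pool.Agent.H295R3.NA.Nb
    congr 2
    ext n
    simp only [mem_filter]
    rfl
  constructor
  · refine (Pool.Agent.H295R3.NA.avn).congr fun Y => ?_
    congr 1
    refine intervalIntegral.integral_congr fun y _ => ?_
    have hg : g (X y) = Pool.Agent.H295R3.NA.gg (y ^ 2 * Real.log 2) := by
      unfold g X Pool.Agent.H295R3.NA.gg
      rw [Real.log_exp, Real.log_exp]
    show Pool.Agent.H295R3.NA.Nb _ ⌊Pool.Agent.H295R3.NA.xx y⌋₊ / Pool.Agent.H295R3.NA.xx y / _ = _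
    rw [hg, h2, ← div_div]
    rfl
  · intro h hh c hc
    refine Pool.Agent.H295R3.NA.uq h ?_ c ?_
    · refine hh.congr fun x => ?_
      rw [h2]
    · exact hc

end Pool.Agent.Results.MP_d8321d_nt.ClosedFormInMean
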