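import Pool.Agent.H295R3.NA.Final

/-!
# The number of non-arithmetic integers: `N(x) ~ x ∑_l 2^{-l} (log x)^{-1/(l-1)}`, sum over the primes `l`

`n` is arithmetic if `d(n) ∣ σ(n)`.  Bateman, Erdős, Pomerance and Straus proved that the number `N(x)` of
non-arithmetic `n ≤ x` is `x exp(-(2 √(log 2) + o(1)) √(log log x))`, and asked for an asymptotic formula.

Proof.  The main contribution comes from `n = 2^{l-1} m`, `m` odd, `l` a prime near `√(log log x/log 2)`, such that no
prime `q = -1 mod l` divides `n` exactly once.  Their number is asymptotically `2^{-l} x (log x)^{-1/(l-1)}`, uniformly in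
the range of `l`: logarithmic sums, Rankin's method, and the prime number theorem in progressions for the tiny moduli
`l ≪ √(log log x)`.  All other non-arithmetic integers are negligible by a Hall-Tenenbaum type upper bound.
-/

set_option autoImplicit false

open Finset Filter Topology

namespace Pool.Agent.Results.MP_d8321d_nt.PrimeSumAsymptotic

/-- `N(x)`: the number of positive integers `n ≤ x` such that `d(n)` does not divide `σ(n)` -/
noncomputable def N (x : ℝ) : ℝ :=
  (((Icc 1 ⌊x⌋₊).filter (fun n : ℕ => ¬ n.divisors.card ∣ ∑ d ∈ n.divisors, d)).card : ℝ)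

/-- `M(x) = ∑_l 2^{-l} (log x)^{-1/(l-1)}`, the sum over all primes `l` -/
noncomputable def M (x : ℝ) : ℝ :=
  ∑' l : Nat.Primes, (1 / 2 : ℝ) ^ (l : ℕ) * (Real.log x) ^ (-(1 / (((l : ℕ) : ℝ) - 1)))

theorem result : Tendsto (fun x : ℝ => N x / (x * M x)) atTop (𝓝 1) := by
  refine (Pool.Agent.H295R3.NA.asr).congr' ?_
  filter_upwards [eventually_gt_atTop (Real.exp 1)] with x hx
  have hx0 : 0 < x := (Real.exp_pos 1).trans hx
  have hlog : 0 < Real.log x := by
    have : 1 < Real.log x := by rw [Real.lt_log_iff_exp_lt hx0]; exact hx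
    linarith
  have h1 : M x = Pool.Agent.H295R3.NA.MMr (Real.log (Real.log x)) := by
    unfold M Pool.Agent.H295R3.NA.MMr
    refine tsum_congr fun l => ?_
    rw [Real.rpow_def_of_pos hlog]
    congr 2
    ring
  have h2 : N x = Pool.Agent.H295R3.NA.Nb Pool.Agent.H295R3.NA.NonArith ⌊x⌋₊ := by
    unfold N Pool.Agent.H295R3.NA.Nb
    congr 2
    ext n
    simp only [mem_filter]
    rfl
  rw [h1, h2]

end Pool.Agent.Results.MP_d8321d_nt.PrimeSumAsymptotic
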